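import Pool.Agent.H46.LW.Cls

/-!
# Module Cel: the cells of one level
PROOF. A cell `(k, a)` which kills something is not empty: `κ 2^a ≤ 2^(k+1) ≤ κ 2^T 2^k`
(`cell_pow`), so `a ≤ k + T`. Let `n = min a (k - a)`. If `n = a`: `2 k + w n = L + n`, so
`(k, a) = ((L + n - w n) / 2, n)`. If `n = k - a < a` and `n ≥ 1`: `k = a + n`, `a + 2 n + w n = L`, so
`(k, a) = (L - w n - n, L - w n - 2 n)`. If `n = 0` and `k ≤ a`: `a = k + t`, `t ≤ T`,
`k + w 0 = L + t`: `(k, a) = (L + t - w 0, L + 2 t - w 0)`. So take `C n` = the set of these at most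
`2 + (T + 1)` pairs. `n ≤ L`: if `n ≥ 1` then `k ≥ a + n`, `a ≥ n` and `L = 2 k - a + w n ≥ n`.
-/

set_option autoImplicit false

namespace Pool.Agent.H46.LW

theorem cells {κ : ℝ} (w : ℕ → ℕ) (T L : ℕ) (hT : 2 ≤ κ * 2 ^ T) :
    ∃ C : ℕ → Finset (ℕ × ℕ), (∀ n, (C n).card ≤ T + 3) ∧
      ∀ α : ℝ, Bad κ α → ∀ k a : ℕ, 2 * k + w (min a (k - a)) = L + a → (∃ q, Cell α k a q) →
        min a (k - a) ≤ L ∧ (k, a) ∈ C (min a (k - a)) := by
  sorry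

end Pool.Agent.H46.LW
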