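import Pool.Agent.H46.LW.Def

/-!
# Module Cls: the size of a cell
PROOF. `cell_pow`: `2^a * nd ≤ 1` and `κ ≤ q nd < 2^(k+1) nd` give `κ 2^a ≤ 2^(k+1) (2^a nd) ≤
2^(k+1)`. `card_cell`: let `Q` be the set. For `q ∈ Q` let `s q = q α - round (q α)`,
`|s q| = nd (q α) ≤ 2^(-a)`. For `q' < q` in `Q`: `0 < q - q' < 2^k`, and `s q - s q' =
(q - q') α - integer`, so `|s q - s q'| ≥ nd ((q - q') α) ≥ κ / (q - q') > κ / 2^k`
(`nd x ≤ |x - m|` for every integer `m`, `round_le`). So `q ↦ ⌊s q * 2^k / κ⌋` is injective on `Q`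
with values in `Icc (-M - 1) M`, `M = ⌊2^k / (2^a κ)⌋`; hence `Q.card ≤ 2 M + 2 ≤
2 * 2^k / (2^a κ) + 2`, and `2 ≤ 4 * 2^k / (2^a κ)` by `cell_pow` if `Q` is not empty.
-/

set_option autoImplicit false

namespace Pool.Agent.H46.LW

theorem nd_le (x : ℝ) (m : ℤ) : nd x ≤ |x - m| := round_le x m

theorem cell_pow {κ α : ℝ} (hB : Bad κ α) {k a q : ℕ} (h : Cell α k a q) :
    κ * 2 ^ a ≤ 2 ^ (k + 1) := by
  sorry

open Classical in
theorem card_cell {κ α : ℝ} (hB : Bad κ α) (k a : ℕ) :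
    (((Finset.range (2 ^ (k + 1))).filter (fun q => Cell α k a q)).card : ℝ) ≤
      6 / κ * (2 ^ k / 2 ^ a) := by
  sorry

end Pool.Agent.H46.LW
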