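import Pool.Agent.H46.LW.Cls

/-!
# Module Key: a small vector kills the interval
Here `w0 = w (min a (k - a))`, `l + a + 7 w0 = 2 k`, `A^2 ≥ 2^(11 + 7 w0)`, `A ≥ 2^(6 + 3 w0)`, and
`(q, p)` satisfies `0 < q ≤ 8 * 2^k / A`, `nd (q α) ≤ 4 / (A 2^a)`, `|y q - p| ≤ 16 * 2^k / (A 2^l)`.
PROOF. Let `(k', a')` be the cell of `q` (`exists_cell`), `w' = w (min a' (k' - a'))`.
(1) `2^k' ≤ q ≤ 8 * 2^k / A`; `1 < 2^(a'+1) nd (q α)` gives `2^(-a') < 2 nd ≤ 8 / (A 2^a)`. So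
`2^k' * 2^a ≤ 2^k * 2^a' * 64 / A^2 ≤ 2^k * 2^a'`, that is `k' + a ≤ k + a'` and
`k' - a' ≤ k - a` (truncated).
(2) `a' ≤ k' + w'` by `cell_pow` and `hw.big`: `κ 2^a' ≤ 2^(k'+1)` and `2 ≤ κ 2^w'` give
`2 * 2^a' ≤ 2^w' κ 2^a' ≤ 2^w' 2^(k'+1)`. Let `L' = 2 k' + w' - a'` (a natural number).
(3) CLAIM (star): `16 * 2^k * 2^k' * 2^w' ≤ A * 2^l * 2^a'`. Case `w' ≤ 3 w0`: by (1)
`16 * 2^k * 2^k' * 2^w' / 2^a' ≤ 16 * 2^k * (8 * 2^k / A) * 2^(3 w0) * 8 / (A 2^a) =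
1024 * 2^(2k) 2^(3 w0) / (A^2 2^a)` and `2^(2k) / 2^a = 2^l 2^(7 w0)`, so it is
`≤ 2^l * 2^(10 + 10 w0) / A^2 ≤ A 2^l` since `A^3 ≥ 2^(11 + 7 w0) 2^(6 + 3 w0)`. Case `3 w0 < w'`: if
`k - a ≤ a`, then `min a' (k' - a') ≤ k' - a' ≤ k - a = min a (k - a)`, so `w' ≤ w0` (`mono`),
contradiction. So `min a (k - a) = a`, `w0 = w a`, and `w' ≤ w a'` (`mono`), so `w a' > 3 w a` and by
`slow` `a + w a' ≤ a'`, hence `a + w' ≤ a'`. Then `16 * 2^k * 2^k' * 2^w' ≤ 128 * 2^(2k) / A * 2^w'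
= 128 * 2^l * 2^(7 w0) * 2^(a + w') / A ≤ 2^l * 2^(7 + 7 w0) * 2^a' / A ≤ A 2^l 2^a'`.
(4) `L' ≤ l`: by (star) `2^L' = 2^k' * 2^k' * 2^w' / 2^a' ≤ 2^k' * A * 2^l / (16 * 2^k) ≤
(8 * 2^k / A) * A * 2^l / (16 * 2^k) = 2^l / 2`.
(5) `|p / q - y| = |y q - p| / q ≤ 16 * 2^k / (A 2^l 2^k') ≤ 1 / 2^L'` by (star), and with
`x' = x / 2^(l - L')`, `y = x / 2^l`: `|x / 2^l - x' / 2^L'| < 1 / 2^L'`. So
`|p / q - x' / 2^L'| < 2 / 2^L'`: `Kill α w L' x'`, `L' ≤ l`, which contradicts `Free`.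
`exists_cell`: `k = Nat.log 2 q`, `a = Nat.log 2 ⌊1 / nd (q α)⌋₊` (`0 < nd (q α) ≤ 1/2`).
-/

set_option autoImplicit false

namespace Pool.Agent.H46.LW

theorem exists_cell {κ α : ℝ} (hB : Bad κ α) {q : ℕ} (hq : 0 < q) : ∃ k a, Cell α k a q := by
  sorry

theorem key {κ α : ℝ} (hB : Bad κ α) {w : ℕ → ℕ} (hw : Wt κ w) {k a l x A : ℕ}
    (hk : l + a + 7 * w (min a (k - a)) = 2 * k)
    (hA1 : 2 ^ (11 + 7 * w (min a (k - a))) ≤ A ^ 2) (hA2 : 2 ^ (6 + 3 * w (min a (k - a))) ≤ A)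
    (hx : Free α w l x) {q : ℕ} {p : ℤ} (hq : 0 < q)
    (h0 : (A : ℝ) * q ≤ 8 * 2 ^ k) (h1 : A * 2 ^ a * nd (q * α) ≤ 4)
    (h2 : A * 2 ^ l * |(x : ℝ) / 2 ^ l * q - p| ≤ 16 * 2 ^ k) : False := by
  sorry

end Pool.Agent.H46.LW
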