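import Pool.Agent.H46.LW.Grw
import Pool.Agent.H46.LW.Key

/-!
# Module Cmp: compactness
PROOF. `K L = {β ∈ [0,1] | ∃ x, Alive α w L x ∧ x / 2^L ≤ β ≤ (x + 1) / 2^L}` is a finite union of
closed intervals (`x < 2^L`), nonempty by `h`, decreasing by `alive_up`: `x / 2^L` lies in the
interval of `x / 2^(L-l)` of level `l`. So there is `β` in all `K L`
(`IsCompact.nonempty_iInter_of_sequence_nonempty_isCompact_isClosed`). Let `i`, `q > 0`; take the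
cell `(k, a)` of `q` (`exists_cell`), `w0 = w i (min a (k - a))`; `a ≤ k + w0` (`cell_pow` and `big`),
`L = 2 k + w0 - a`. `β` is in the interval of an alive `x` of level `L`; `Free` at `l' = L`
(`x / 2^0 = x`): no integer `p` has `|p / q - x / 2^L| < 2 / 2^L`; with `p = round (q β)`:
`|β - p / q| ≥ 2 / 2^L - 1 / 2^L`, so `nd (q β) = q |β - p / q| ≥ q / 2^L ≥ 2^k 2^a / (2^(2k) 2^w0)`.
And `nd (q α) > 2^(-a-1)`, `q ≥ 2^k`: the product `q nd nd` is at least `1 / (2 * 2^w0)`.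
The bounds for `n = min a (k - a)`: `2^n ≤ 2^a ≤ 1 / nd (q α)`, and `2^n ≤ 2^(k-a)`, which is `1` or
`2^k / 2^a ≤ q * 2 nd (q α)`: so `2^n ≤ 1 + 2 q nd (q α)`.
-/

set_option autoImplicit false

namespace Pool.Agent.H46.LW

theorem exists_beta {α : ℕ → ℝ} {w : ℕ → ℕ → ℕ} {κ : ℕ → ℝ} (hB : ∀ i, Bad (κ i) (α i))
    (hw : ∀ i, Wt (κ i) (w i)) (h : ∀ L, ∃ x, Alive α w L x) :
    ∃ β : ℝ, ∀ i : ℕ, ∀ q : ℕ, 0 < q → ∃ n : ℕ,
      1 / (2 * 2 ^ w i n) ≤ q * nd (q * α i) * nd (q * β) ∧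
      2 ^ n * nd (q * α i) ≤ 1 ∧ 2 ^ n ≤ 1 + 2 * (q * nd (q * α i)) := by
  sorry

end Pool.Agent.H46.LW
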