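import Mathlib

/-!
# Module Fun: the slowly growing function
`fE ε n = ⌈(1 + ε) log_2 (n + 1)⌉`. PROOF. `fE_mono`: clear. `fE_le`, `le_fE`: `Nat.ceil_lt_add_one`,
`Nat.le_ceil`. `fE_slow`: `(1 + ε) log_2 (n + 1) + 1 ≤ n / 2 + C` for some natural `C` and all `n`
(`log` is `o(n)`, or `log t ≤ c t + C(c)`), so `a' < a + W + fE a'` gives `a' < 2 (a + W + C)`, so
`a' + 1 ≤ (a + 1) (2 W + 2 C + 2)` and `fE a' ≤ (1 + ε) log_2 (a + 1) + (1 + ε) log_2 (2 W + 2 C + 2)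
+ 1 ≤ fE a + 2 W` if `W` is large (`(1 + ε) log_2 (2 W + 2 C + 2) + 1 ≤ 2 W` eventually). So
`W + fE a' ≤ 3 W + fE a ≤ 3 (W + fE a)`. `fE_sum`: choose `X < 1` with `(1 + ε) log_2 (1 / X) > 1`, that
is `X < 2^(-1/(1+ε))`, and `g` close to 2 with `(2/g)^8 / 2 ≤ X` (the left side tends to `1/2 < X`
as `g → 2`): `X^(fE n) ≤ X^((1+ε) log_2 (n+1)) = (n+1)^(-(1+ε) log_2 (1/X))` is summable.
-/

set_option autoImplicit false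

namespace Pool.Agent.H46.LW

/-- `⌈(1 + ε) log_2 (n + 1)⌉`. -/
noncomputable def fE (ε : ℝ) (n : ℕ) : ℕ := ⌈(1 + ε) * Real.logb 2 (n + 1)⌉₊

theorem fE_mono {ε : ℝ} (hε : 0 < ε) : Monotone (fE ε) := by
  sorry

theorem fE_le {ε : ℝ} (hε : 0 < ε) (n : ℕ) :
    (fE ε n : ℝ) ≤ (1 + ε) * Real.logb 2 (n + 1) + 1 := by
  sorry

theorem fE_slow {ε : ℝ} (hε : 0 < ε) : ∃ W0 : ℕ, ∀ W, W0 ≤ W → ∀ a a' : ℕ,
    a' < a + (W + fE ε a') → W + fE ε a' ≤ 3 * (W + fE ε a) := by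
  sorry

theorem fE_sum {ε : ℝ} (hε : 0 < ε) : ∃ g : ℝ, 1 < g ∧ g < 2 ∧ (2 / g) ^ 8 / 2 < 1 ∧
    Summable (fun n : ℕ => ((2 / g) ^ 8 / 2) ^ fE ε n) := by
  sorry

end Pool.Agent.H46.LW
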