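import Pool.Agent.H46.LW.Def
import Pool.Agent.H46.LW.Fun

/-!
# Module Cnv: conversion of the bound
Let `x = q nd (q α)`, `y = q nd (q β)`, `P = q nd (q α) nd (q β)`, `s = nd (q α)`, so `P = s y`, `P ≤ x / 2`.
PROOF. By `fE_le`: `2^(W + fE n) ≤ 2^(W+1) (n+1)^(1+ε)`, so `P ≥ c1 (n+1)^(-(1+ε))` with
`c1 = 2^(-W-2)`. CLAIM: there is `C` (depending on `W, ε`) with `n + 1 ≤ C log (2 + min x y)`.
(1) `2^n ≤ 1 + 2 x ≤ (2 + x)^2`, so `n log 2 ≤ 2 log (2 + x)`. (2) `2^n s ≤ 1` and `P = s y` give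
`2^n P ≤ y`, so `2^n c1 (n+1)^(-(1+ε)) ≤ y`; as `2^(n/2) ≥ c2 (n+1)^(1+ε)` for some `c2 > 0`,
`2^(n/2) c1 c2 ≤ y ≤ 2 + y`: `n log 2 / 2 ≤ log (2 + y) + log (1 / (c1 c2))`. Since
`log (2 + y) ≥ log 2 > 0`, `n + 1 ≤ C log (2 + y)`. Both together give the claim
(`log (2 + min x y) = min (log (2 + x)) (log (2 + y))`). Hence
`P (log (2 + min x y))^(1+ε) ≥ c1 C^(-(1+ε))`.
-/

set_option autoImplicit false

namespace Pool.Agent.H46.LW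

theorem convert {ε : ℝ} (hε : 0 < ε) (W : ℕ) : ∃ c : ℝ, 0 < c ∧ ∀ (q s t : ℝ) (n : ℕ),
    1 ≤ q → 0 < s → 0 ≤ t → 1 / (2 * 2 ^ (W + fE ε n)) ≤ q * s * t → 2 ^ n * s ≤ 1 →
    2 ^ n ≤ 1 + 2 * (q * s) →
    c ≤ q * s * t * Real.log (2 + min (q * s) (q * t)) ^ (1 + ε) := by
  sorry

end Pool.Agent.H46.LW
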