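import Mathlib

/-!
# Near counterexamples to the Littlewood conjecture: definitions

`nd x` is the distance of `x` to the nearest integer. The cell `(k, a)` of `α` consists of the
`q` with `2^k ≤ q < 2^(k+1)` and `2^(-a-1) < ‖q α‖ ≤ 2^(-a)`. With a weight `w : ℕ → ℕ` the number
`q` of the cell `(k, a)` belongs to the level `L = 2 k - a + w (min a (k - a))` and kills at this
level the dyadic intervals `[x / 2^L, (x + 1) / 2^L]` with `|p / q - x / 2^L| < 2 / 2^L` for some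
integer `p`.
-/

set_option autoImplicit false

namespace Pool.Agent.H46.LW

/-- Distance to the nearest integer. -/
noncomputable def nd (x : ℝ) : ℝ := |x - round x|

/-- `q` is in the cell `(k, a)` of `α`: `2^k ≤ q < 2^(k+1)` and `2^(-a-1) < ‖q α‖ ≤ 2^(-a)`. -/
def Cell (α : ℝ) (k a q : ℕ) : Prop :=
  2 ^ k ≤ q ∧ q < 2 ^ (k + 1) ∧ 1 < 2 ^ (a + 1) * nd (q * α) ∧ 2 ^ a * nd (q * α) ≤ 1

/-- `α` is badly approximable with constant `κ`. -/
def Bad (κ α : ℝ) : Prop := 0 < κ ∧ ∀ q : ℕ, 0 < q → κ ≤ q * nd (q * α)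

/-- The fractions `p / q`, `q` in the cell `(k, a)`, at distance less than `r` from `y`. -/
def Frac (α : ℝ) (k a : ℕ) (y r : ℝ) : Set ℚ :=
  {z | ∃ (q : ℕ) (p : ℤ), Cell α k a q ∧ z = (p : ℚ) / (q : ℚ) ∧ |(z : ℝ) - y| < r}

/-- The interval `x` of level `L` is killed by a number of the cell `(k, a)`. -/
def KillC (α : ℝ) (k a L x : ℕ) : Prop :=
  ∃ (q : ℕ) (p : ℤ), Cell α k a q ∧ |(p : ℝ) / q - (x : ℝ) / 2 ^ L| < 2 / 2 ^ L

/-- The interval `x` of level `L` is killed by `α` with the weight `w`. -/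
def Kill (α : ℝ) (w : ℕ → ℕ) (L x : ℕ) : Prop :=
  ∃ k a : ℕ, 2 * k + w (min a (k - a)) = L + a ∧ KillC α k a L x

/-- The interval `x` of level `l` and all intervals which contain it are not killed by `α`. -/
def Free (α : ℝ) (w : ℕ → ℕ) (l x : ℕ) : Prop :=
  ∀ l', l' ≤ l → ¬ Kill α w l' (x / 2 ^ (l - l'))

/-- The alive intervals of level `L`, for a family of numbers. -/
def Alive (α : ℕ → ℝ) (w : ℕ → ℕ → ℕ) (L x : ℕ) : Prop :=
  x < 2 ^ L ∧ ∀ i, Free (α i) (w i) L x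

open Classical in
/-- The number of alive intervals of level `L`. -/
noncomputable def cntA (α : ℕ → ℝ) (w : ℕ → ℕ → ℕ) (L : ℕ) : ℕ :=
  ((Finset.range (2 ^ L)).filter (fun x => Alive α w L x)).card

/-- Properties of a weight: monotone, large against `κ`, and slowly varying. -/
structure Wt (κ : ℝ) (w : ℕ → ℕ) : Prop where
  mono : Monotone w
  big : ∀ n, 2 ≤ κ * 2 ^ w n
  slow : ∀ a a', a' < a + w a' → w a' ≤ 3 * w a

/-- Determinant of three integer vectors. -/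
def det3 (u v w : Fin 3 → ℤ) : ℤ :=
  u 0 * (v 1 * w 2 - v 2 * w 1) - u 1 * (v 0 * w 2 - v 2 * w 0) + u 2 * (v 0 * w 1 - v 1 * w 0)

/-- The linear forms `q`, `α q - r`, `y q - p` of an integer vector `(q, r, p)`. -/
def frm (α y : ℝ) (v : Fin 3 → ℤ) : Fin 3 → ℝ :=
  ![(v 0 : ℝ), α * v 0 - v 1, y * v 0 - v 2]

end Pool.Agent.H46.LW
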