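import Pool.Agent.H46.LW.Per

/-!
# Module Grw: killed intervals of one cell among the alive intervals
PROOF. Let `l = L - 8 w0`, `w0 = w i (min a (k - a))`. If `x` is in the set, then `y = x / 2^(L-l)` is
alive at level `l` (it contains the interval `x / 2` of level `L - 1`, and `Alive` passes to larger
intervals: `Nat.div_div_eq_div_mul`). So by `per_cell` the number is at most `cntA l * 12000 / κ *
(2^k 2^k / (2^a 2^l))`, and `2^k 2^k / 2^a = 2^L / 2^w0`. By `hg`, `g^(L-1-l) cntA l ≤ cntA (L-1)`. So it is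
at most `12000 / κ * 2^(L-l) / 2^w0 / g^(L-1-l) * cntA (L-1) = 24000 / κ / 2^w0 * (2/g)^(L-1-l) *
cntA (L-1)`, and `L - 1 - l ≤ 8 w0`, `2 / g ≥ 1`.
-/

set_option autoImplicit false

namespace Pool.Agent.H46.LW

/-- `Alive` passes to larger intervals. -/
theorem alive_up {α : ℕ → ℝ} {w : ℕ → ℕ → ℕ} {L x l : ℕ} (h : Alive α w L x) (hl : l ≤ L) :
    Alive α w l (x / 2 ^ (L - l)) := by
  sorry

open Classical in
theorem cell_cost {α : ℕ → ℝ} {w : ℕ → ℕ → ℕ} {κ : ℝ} {i : ℕ} (hB : Bad κ (α i))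
    (hw : Wt κ (w i)) {g : ℝ} (hg1 : 1 ≤ g) (hg2 : g ≤ 2) {L : ℕ} (hL1 : 1 ≤ L)
    (hg : ∀ m, m + 1 < L → g * cntA α w m ≤ cntA α w (m + 1))
    {k a : ℕ} (hL : 2 * k + w i (min a (k - a)) = L + a) :
    (((Finset.range (2 ^ L)).filter
      (fun x => Alive α w (L - 1) (x / 2) ∧ KillC (α i) k a L x)).card : ℝ) ≤
      24000 / κ * ((2 / g) ^ 8 / 2) ^ w i (min a (k - a)) * cntA α w (L - 1) := by
  sorry

end Pool.Agent.H46.LW
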