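import Pool.Agent.H46.LW.Def

/-!
# Module Pln: many vectors in a plane
PROOF. For `c : Fin 3` let `m c u v = u (c+1) * v (c+2) - u (c+2) * v (c+1)` (a component of the
cross product; write the three cases `c = 0, 1, 2` out if this is easier). By `h2` there are `c` and
`u, v ∈ V` with `m c u v ≠ 0`. Fix this `c` and choose `v1, v2 ∈ V` with `|m c v1 v2|` maximal, so
`M = m c v1 v2 ≠ 0`. For `v ∈ V` put `t1 v = m c v v2 / M`, `t2 v = m c v1 v / M` (reals): by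
maximality `|t1 v|, |t2 v| ≤ 1`, and `M * v i = m c v v2 * v1 i + m c v1 v * v2 i` for all `i`
(polynomial identities, for one `i` one has to use `det3 v v1 v2 = 0`). Pigeonhole: the map
`v ↦ (min (A-1) ⌊(t1 v + 1) / 2 * A⌋₊, the same for t2)` from `V` to `range A ×ˢ range A` (`A^2`
elements, fewer than `V.card`) is not injective: `v ≠ v'` in one cell, `|t1 v - t1 v'| ≤ 2 / A`,
`|t2 v - t2 v'| ≤ 2 / A`. Take `x = v - v'`, `s1 = t1 v - t1 v'`, `s2 = t2 v - t2 v'`.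
-/

set_option autoImplicit false

namespace Pool.Agent.H46.LW

theorem plane (V : Finset (Fin 3 → ℤ))
    (h3 : ∀ u ∈ V, ∀ v ∈ V, ∀ w ∈ V, det3 u v w = 0)
    (h2 : ∃ u ∈ V, ∃ v ∈ V, ∃ i j : Fin 3, u i * v j - u j * v i ≠ 0)
    (A : ℕ) (hA : 1 ≤ A) (hV : A ^ 2 < V.card) :
    ∃ (x : Fin 3 → ℤ) (v1 v2 : Fin 3 → ℤ) (s1 s2 : ℝ), x ≠ 0 ∧ v1 ∈ V ∧ v2 ∈ V ∧
      |s1| ≤ 2 / A ∧ |s2| ≤ 2 / A ∧ ∀ i, (x i : ℝ) = s1 * v1 i + s2 * v2 i := by
  sorry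

end Pool.Agent.H46.LW
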