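import Pool.Agent.H46.LW.Def
import Pool.Agent.H46.LW.Trv

/-!
# Module Vec: the vectors of the fractions
PROOF. For every `z ∈ Frac` choose `q, p` and take `v = ![q, round (q α), p]`: `frm α y v =
(q, α q - round, y q - p)`, `|frm 0| = q ≤ 2^(k+1)`, `|frm 1| = nd (q α) ≤ 1 / 2^a`,
`|frm 2| = q |y - z| ≤ 2^(k+1) * 2 / 2^l`. The map `z ↦ v` is injective because `z = v 2 / v 0`.
Take `V` = the image of the finite set `Frac` (`frac_finite`). `det_le`: `det3 u v w` is the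
determinant of the real vectors `frm u, frm v, frm w` (the matrix of the three forms has
determinant 1): a polynomial identity; it is a sum of six products of absolute value at most
`B0 B1 B2`.
-/

set_option autoImplicit false

namespace Pool.Agent.H46.LW

theorem exists_vec (α : ℝ) (k a l : ℕ) (y : ℝ) :
    ∃ V : Finset (Fin 3 → ℤ), V.card = (Frac α k a y (2 / 2 ^ l)).ncard ∧
      (∀ v ∈ V, 0 < v 0) ∧
      (∀ v ∈ V, |frm α y v 0| ≤ 2 ^ (k + 1) ∧ |frm α y v 1| ≤ 1 / 2 ^ a ∧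
        |frm α y v 2| ≤ 2 ^ (k + 2) / 2 ^ l) ∧
      (∀ v ∈ V, ∀ v' ∈ V, v 0 * v' 2 = v' 0 * v 2 → v = v') := by
  sorry

theorem det_le {α y : ℝ} {B0 B1 B2 : ℝ} (V : Finset (Fin 3 → ℤ))
    (hV : ∀ v ∈ V, |frm α y v 0| ≤ B0 ∧ |frm α y v 1| ≤ B1 ∧ |frm α y v 2| ≤ B2)
    {u v w : Fin 3 → ℤ} (hu : u ∈ V) (hv : v ∈ V) (hw : w ∈ V) :
    (|det3 u v w| : ℝ) ≤ 6 * (B0 * B1 * B2) := by
  sorry

end Pool.Agent.H46.LW
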