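import Pool.Agent.H46.LW.Idx
import Pool.Agent.H46.LW.Pln
import Pool.Agent.H46.LW.Vec
import Pool.Agent.H46.LW.Key

/-!
# Module LocA: the local count for short intervals
PROOF. Write `w0 = w (min a (k - a))`, `y = x / 2^l`; take `V` from `exists_vec`, `B0 B1 B2 =
2^(k+1) * (1 / 2^a) * 2^(k+2) / 2^l = 8 * 2^(2k) / (2^a 2^l) = 8 * 2^(7 w0)` (`hk`). CASE 1: some
determinant of vectors of `V` is not 0: `det_le` gives `|det3| ≤ 48 * 2^(7 w0) = D`, `count3`: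
`V.card ≤ 6000 * 2^(7 w0)`. CASE 2: all determinants are 0 and some `u i * v j - u j * v i ≠ 0`:
suppose `6000 * 2^(7 w0) < V.card`; put `A = 64 * 2^(7 w0 / 2)` (natural division): `A^2 ≤ 4096 *
2^(7 w0) < V.card`, `A^2 ≥ 2^(11 + 7 w0)`, `A ≥ 2^(6 + 3 w0)`. `plane` gives
`x' = (q, r, p) ≠ 0`; since `frm` is linear, `|frm x' i| ≤ (4 / A) B_i`: `|q| ≤ 8 * 2^k / A`,
`|α q - r| ≤ 4 / (A 2^a)`, `|y q - p| ≤ 16 * 2^k / (A 2^l)`. If `q = 0`: `|r| ≤ 4 / A < 1` and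
`|p| ≤ 16 * 2^k / (A 2^l) < 1` (`k ≤ l`, `A ≥ 64`), so `x' = 0`, contradiction. Replacing `x'` by
`-x'` we may assume `q > 0`; `nd (q α) ≤ |α q - r|`. `key` gives a contradiction. CASE 3: all
`u i * v j - u j * v i = 0`: any two elements of `V` are equal (last property of `exists_vec`, `i = 0`,
`j = 2`), `V.card ≤ 1`.
-/

set_option autoImplicit false

namespace Pool.Agent.H46.LW

theorem local_short {κ α : ℝ} (hB : Bad κ α) {w : ℕ → ℕ} (hw : Wt κ w) {k a l x : ℕ}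
    (hk : l + a + 7 * w (min a (k - a)) = 2 * k) (hl : k ≤ l) (hx : Free α w l x) :
    (Frac α k a ((x : ℝ) / 2 ^ l) (2 / 2 ^ l)).ncard ≤ 6000 * 2 ^ (7 * w (min a (k - a))) := by
  sorry

end Pool.Agent.H46.LW
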