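import Pool.Agent.H46.LW.Pos
import Pool.Agent.H46.LW.Cmp
import Pool.Agent.H46.LW.Par
import Pool.Agent.H46.LW.Cnv

/-!
# Assembly
-/

set_option autoImplicit false

namespace Pool.Agent.H46.LW

theorem main_seq {ε : ℝ} (hε : 0 < ε) (α : ℕ → ℝ) (h : ∀ i, ∃ κ, Bad κ (α i)) :
    ∃ β : ℝ, ∀ i, ∃ c : ℝ, 0 < c ∧ ∀ q : ℕ, 0 < q →
      c ≤ q * nd (q * α i) * nd (q * β) *
        Real.log (2 + min (q * nd (q * α i)) (q * nd (q * β))) ^ (1 + ε) := by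
  choose κ hκ using h
  obtain ⟨g, T, W, hg1, hg2, hT, hi, hw, hsum⟩ := params hε κ (fun i => (hκ i).1)
  obtain ⟨β, hβ⟩ := exists_beta hκ hw (alive_exists hκ hw hT hi hg1 hg2 hsum)
  refine ⟨β, fun i => ?_⟩
  obtain ⟨c, hc, hcv⟩ := convert hε (W i)
  refine ⟨c, hc, fun q hq => ?_⟩
  obtain ⟨n, h1, h2, h3⟩ := hβ i q hq
  have hs : 0 < nd (q * α i) := by
    have h4 := (hκ i).2 q hq
    have h5 := (hκ i).1
    have hq0 : (0 : ℝ) < q := by exact_mod_cast hq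
    by_contra hcon
    have h6 : nd (q * α i) ≤ 0 := not_lt.mp hcon
    nlinarith
  exact hcv q _ _ n (by exact_mod_cast hq) hs (abs_nonneg _) h1 h2 h3

theorem main_countable {ε : ℝ} (hε : 0 < ε) {S : Set ℝ} (hS : S.Countable)
    (h : ∀ α ∈ S, ∃ κ, Bad κ α) :
    ∃ β : ℝ, ∀ α ∈ S, ∃ c : ℝ, 0 < c ∧ ∀ q : ℕ, 0 < q →
      c ≤ q * nd (q * α) * nd (q * β) *
        Real.log (2 + min (q * nd (q * α)) (q * nd (q * β))) ^ (1 + ε) := by
  rcases S.eq_empty_or_nonempty with rfl | hne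
  · exact ⟨0, fun α hα => absurd hα (Set.notMem_empty α)⟩
  · obtain ⟨f, hf⟩ := hS.exists_eq_range hne
    obtain ⟨β, hβ⟩ := main_seq hε f (fun i => h _ (by rw [hf]; exact Set.mem_range_self i))
    refine ⟨β, fun α hα => ?_⟩
    rw [hf] at hα
    obtain ⟨i, rfl⟩ := hα
    exact hβ i

end Pool.Agent.H46.LW
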