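import Pool.Agent.H46.LW.Loc

/-!
# Module Per: killed intervals of one cell inside one alive interval
PROOF. `l < L` (`w ≥ 1` by `big`: `κ ≤ 1/2`, so `2^w ≥ 4`; and `1 ≤ L`). For `x` in the set there is a
fraction `z = p / q` with `|z - x / 2^L| < 2 / 2^L ≤ 1 / 2^l`, and `x / 2^(L-l) = y` gives
`y / 2^l ≤ x / 2^L < (y + 1) / 2^l`, so `|z - y / 2^l| < 2 / 2^l`: `z ∈ Frac`. For a given `z` the
numbers `x` satisfy `|x - 2^L z| < 2`: at most 4 of them (`x ↦ x - ⌊2^L z⌋ ∈ {-1, 0, 1, 2}`). So the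
number is at most `4 * ncard Frac`.
-/

set_option autoImplicit false

namespace Pool.Agent.H46.LW

open Classical in
theorem per_cell {κ α : ℝ} (hB : Bad κ α) {w : ℕ → ℕ} (hw : Wt κ w) {k a L l y : ℕ} (hL1 : 1 ≤ L)
    (hL : 2 * k + w (min a (k - a)) = L + a) (hl : l = L - 8 * w (min a (k - a)))
    (hy : Free α w l y) :
    (((Finset.range (2 ^ L)).filter (fun x => x / 2 ^ (L - l) = y ∧ KillC α k a L x)).card : ℝ) ≤
      12000 / κ * (2 ^ k * 2 ^ k / (2 ^ a * 2 ^ l)) := by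
  sorry

end Pool.Agent.H46.LW
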