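import Pool.Agent.H46.LW.Stp

/-!
# Module Pos: alive intervals exist at every level
PROOF. `cntA 0 = 1`: the interval `0` of level 0 is alive, because `Kill` at level 0 would need
`2 k + w = a` with a nonempty cell: `a ≤ k + T i < k + w` by `cell_pow` and `hi`. By strong induction
with `step`: `g * cntA m ≤ cntA (m + 1)` for all `m`, so `cntA m ≥ g^m > 0`.
-/

set_option autoImplicit false

namespace Pool.Agent.H46.LW

theorem alive_exists {α : ℕ → ℝ} {w : ℕ → ℕ → ℕ} {κ : ℕ → ℝ} (hB : ∀ i, Bad (κ i) (α i))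
    (hw : ∀ i, Wt (κ i) (w i)) {T : ℕ → ℕ} (hT : ∀ i, 2 ≤ κ i * 2 ^ T i)
    (hi : ∀ i n, T i + i + 1 ≤ w i n) {g : ℝ} (hg1 : 1 ≤ g) (hg2 : g ≤ 2)
    (hsum : ∀ L : ℕ, ∑ i ∈ Finset.range L, ∑ n ∈ Finset.range (L + 1),
      ((T i : ℝ) + 3) * (24000 / κ i) * ((2 / g) ^ 8 / 2) ^ w i n ≤ 2 - g) :
    ∀ L, ∃ x, Alive α w L x := by
  sorry

end Pool.Agent.H46.LW
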