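import Pool.Agent.H46.LW.Grw
import Pool.Agent.H46.LW.Cel

/-!
# Module Stp: one step of the tree
PROOF. The intervals of level `L` whose parent `x / 2` is alive at level `L - 1` are `2 cntA (L-1)` in
number (`2 y, 2 y + 1`), and such an `x` is alive iff it is not killed at level `L` by any `α i`
(`x / 2^(L-l') = (x/2) / 2^(L-1-l')` for `l' < L`). If it is killed by `α i` through the cell `(k, a)`,
then `a ≤ k + T i` and `2 k + w = L + a` give `w i _ ≤ L + T i`, and `i < L` by `hi`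
(`w i n ≥ T i + i + 1`). So the number of killed ones is at most the sum over `i < L`, `n ≤ L` and
the pairs `(k, a)` of `C i n` (`cells`) of the numbers in `cell_cost` (only for pairs with
`2 k + w i (min a (k - a)) = L + a` and `min a (k - a) = n`; for the others the set is not needed),
which is at most `∑ i < L, ∑ n ≤ L, (T i + 3) * (24000 / κ i) * X^(w i n) * cntA (L-1)
≤ (2 - g) cntA (L-1)`.
-/

set_option autoImplicit false

namespace Pool.Agent.H46.LW

theorem step {α : ℕ → ℝ} {w : ℕ → ℕ → ℕ} {κ : ℕ → ℝ} (hB : ∀ i, Bad (κ i) (α i))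
    (hw : ∀ i, Wt (κ i) (w i)) {T : ℕ → ℕ} (hT : ∀ i, 2 ≤ κ i * 2 ^ T i)
    (hi : ∀ i n, T i + i + 1 ≤ w i n) {g : ℝ} (hg1 : 1 ≤ g) (hg2 : g ≤ 2)
    (hsum : ∀ L : ℕ, ∑ i ∈ Finset.range L, ∑ n ∈ Finset.range (L + 1),
      ((T i : ℝ) + 3) * (24000 / κ i) * ((2 / g) ^ 8 / 2) ^ w i n ≤ 2 - g)
    {L : ℕ} (hL1 : 1 ≤ L) (hg : ∀ m, m + 1 < L → g * cntA α w m ≤ cntA α w (m + 1)) :
    g * cntA α w (L - 1) ≤ cntA α w L := by
  sorry

end Pool.Agent.H46.LW
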